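import Pool.Agent.helper92.ISO.SpecC

set_option autoImplicit false

namespace Pool.Agent.ISO

theorem IPC_flip {w : ℕ} (a y : Fin w → Bool) (j : Fin w) :
    ip (Function.update a j (!a j)) y = xor (ip a y) (y j) := by
  unfold ip
  cases hy : y j with
  | false =>
    have h : (Finset.univ.filter fun i => Function.update a j (!a j) i = true ∧ y i = true) =
        Finset.univ.filter fun i => a i = true ∧ y i = true := by
      refine Finset.filter_congr fun i _ => ?_
      by_cases hi : i = j
      · subst hi
        simp [hy]
      · rw [Function.update_of_ne hi]
    rw [h, Bool.xor_false]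
  | true =>
    cases ha : a j with
    | true =>
      have h : (Finset.univ.filter fun i => Function.update a j (!true) i = true ∧ y i = true) =
          (Finset.univ.filter fun i => a i = true ∧ y i = true).erase j := by
        ext i
        simp only [Finset.mem_filter, Finset.mem_univ, true_and, Finset.mem_erase]
        by_cases hi : i = j
        · subst hi
          simp
        · rw [Function.update_of_ne hi]
          simp [hi]
      have hm : j ∈ Finset.univ.filter fun i => a i = true ∧ y i = true := by simp [hy, ha]
      rw [h, Finset.card_erase_of_mem hm]
      have hpos : 0 < (Finset.univ.filter fun i => a i = true ∧ y i = true).card := Finset.card_pos.2 ⟨j, hm⟩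
      generalize (Finset.univ.filter fun i => a i = true ∧ y i = true).card = n at hpos
      obtain ⟨m, rfl⟩ : ∃ m, n = m + 1 := ⟨n - 1, by omega⟩
      rw [Nat.add_sub_cancel, Bool.xor_true]
      by_cases hm : Odd m
      · have : ¬ Odd (m + 1) := by rw [Nat.odd_add_one]; exact not_not.2 hm
        simp [hm, this]
      · have : Odd (m + 1) := by rw [Nat.odd_add_one]; exact hm
        simp [hm, this]
    | false =>
      have h : (Finset.univ.filter fun i => Function.update a j (!false) i = true ∧ y i = true) =
          insert j (Finset.univ.filter fun i => a i = true ∧ y i = true) := by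
        ext i
        simp only [Finset.mem_filter, Finset.mem_univ, true_and, Finset.mem_insert]
        by_cases hi : i = j
        · subst hi
          simp [hy]
        · rw [Function.update_of_ne hi]
          simp [hi]
      have hm : j ∉ Finset.univ.filter fun i => a i = true ∧ y i = true := by simp [ha]
      rw [h, Finset.card_insert_of_notMem hm]
      generalize (Finset.univ.filter fun i => a i = true ∧ y i = true).card = m
      rw [Bool.xor_true]
      by_cases hm : Odd m
      · have : ¬ Odd (m + 1) := by rw [Nat.odd_add_one]; exact not_not.2 hm
        simp [hm, this]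
      · have : Odd (m + 1) := by rw [Nat.odd_add_one]; exact hm
        simp [hm, this]

theorem IPC_half {w : ℕ} (y y' : Fin w → Bool) (h : y ≠ y') :
    2 * (Finset.univ.filter fun a : Fin w → Bool => ip a y = ip a y').card = 2 ^ w := by
  obtain ⟨j, hj⟩ := Function.ne_iff.1 h
  have hinv : ∀ a : Fin w → Bool, Function.update (Function.update a j (!a j)) j (!(Function.update a j (!a j)) j) = a := by
    intro a
    rw [Function.update_self, Function.update_idem, Bool.not_not, Function.update_eq_self]
  have hcard : (Finset.univ.filter fun a : Fin w → Bool => ip a y = ip a y').card =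
      (Finset.univ.filter fun a : Fin w → Bool => ¬ ip a y = ip a y').card := by
    refine Finset.card_bij' (fun a _ => Function.update a j (!a j)) (fun a _ => Function.update a j (!a j)) ?_ ?_ ?_ ?_
    · intro a ha
      simp only [Finset.mem_filter, Finset.mem_univ, true_and] at ha ⊢
      rw [IPC_flip, IPC_flip, ha]
      intro h2
      exact hj (by simpa using h2)
    · intro a ha
      simp only [Finset.mem_filter, Finset.mem_univ, true_and] at ha ⊢
      rw [IPC_flip, IPC_flip]
      revert ha hj
      cases ip a y <;> cases ip a y' <;> cases y j <;> cases y' j <;> simp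
    · intro a _
      exact hinv a
    · intro a _
      exact hinv a
  have hsum := Finset.card_filter_add_card_filter_not (s := (Finset.univ : Finset (Fin w → Bool))) (fun a => ip a y = ip a y')
  rw [← hcard, Finset.card_univ, Fintype.card_fun, Fintype.card_bool, Fintype.card_fin] at hsum
  omega

theorem IPC_proof : IPC_stmt := by
  intro w y y'
  refine ⟨IPC_half y y', fun h => ?_, ?_⟩
  · rw [← IPC_half y y' h]
    congr 1
    refine Finset.card_bij' (fun a _ => a.1) (fun a _ => (a, ip a y)) ?_ ?_ ?_ ?_
    · rintro ⟨a, b⟩ hab
      simp only [Finset.mem_filter, Finset.mem_univ, true_and] at hab ⊢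
      rw [hab.1, hab.2]
    · intro a ha
      simp only [Finset.mem_filter, Finset.mem_univ, true_and] at ha ⊢
      exact ha.symm
    · rintro ⟨a, b⟩ hab
      simp only [Finset.mem_filter, Finset.mem_univ, true_and] at hab
      simp [hab.1]
    · intro a _
      rfl
  · have h0 : (Finset.univ : Finset (Fin w → Bool)).card = 2 ^ w := by
      rw [Finset.card_univ, Fintype.card_fun, Fintype.card_bool, Fintype.card_fin]
    rw [← h0]
    refine Finset.card_bij' (fun a _ => a.1) (fun a _ => (a, ip a y)) ?_ ?_ ?_ ?_
    · intro a _
      exact Finset.mem_univ _
    · intro a _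
      simp
    · rintro ⟨a, b⟩ hab
      simp only [Finset.mem_filter, Finset.mem_univ, true_and] at hab
      simp [hab]
    · intro a _
      rfl

end Pool.Agent.ISO
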